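import Pool.Agent.Lib.MP_1a91b9_ntH.C.V

/-!
# MP_1a91b9_nt (TwistDensity), phase 2, part C: the place above 2 for a ramified twist

`Cl ν u 0`: `u` is a square modulo `4`.
-/

set_option autoImplicit false
set_option linter.unusedSectionVars false

namespace Pool.Agent.Lib.MP_1a91b9_ntH2.C

open WithZero Pool.Agent.Lib.MP_1a91b9_ntH.C

variable {L : Type*} [Field L] [CharZero L] (ν : Valuation L ℤᵐ⁰)

theorem cl_mul0 {ν : Valuation L ℤᵐ⁰} (h2 : ν 2 = exp (-1)) {u u' : L} (h : Cl ν u 0)
    (h' : Cl ν u' 0) : Cl ν (u * u') 0 := by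
  have h0 : ν (0 : L) ≤ 1 := by rw [map_zero]; exact zero_le
  have h3 := Cl.mul h2 h0 h0 h h'
  rwa [add_zero] at h3

theorem cl_ne {ν : Valuation L ℤᵐ⁰} (h2 : ν 2 = exp (-1)) {u : L} (h : Cl ν u 0) : u ≠ 0 := by
  rintro rfl
  obtain ⟨b, hb, h⟩ := h
  rw [zero_div, mul_zero, add_zero, zero_sub, Valuation.map_neg, map_one] at h
  exact absurd h (not_le.2 (nu_four_le h2))

/-- the value of a square modulo `4` is a square -/
theorem cl_even {ν : Valuation L ℤᵐ⁰} (h2 : ν 2 = exp (-1)) {u : L} (h : Cl ν u 0) :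
    IsSquare (ν u) := by
  obtain ⟨b, hb, h⟩ := h
  rw [mul_zero, add_zero] at h
  refine ⟨ν b, ?_⟩
  have h1 : ν (u / b ^ 2) = 1 := by
    have := ν.map_one_add_of_lt (lt_of_le_of_lt h (nu_four_le h2))
    rwa [add_sub_cancel] at this
  have e : u = b * b * (u / b ^ 2) := by field_simp
  rw [e, map_mul, map_mul, h1, mul_one]

/-- (c), `d` not a square modulo `4`: the class of `a` modulo `4` is trivial or that of a point of
order two. -/
theorem loc_two' {z d : L} (hz : z ^ 2 + z + 1 = 0) (h2 : ν 2 = exp (-1)) (hd1 : ν d = 1)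
    (hdn : ¬ Cl ν d 0)
    (hres : ∀ x : L, ν x = 1 → ∃ j : Fin 3, ν (x - z ^ (j : ℕ)) < 1) (a : Fin 3 → L)
    (h : GLoc ν z d a) :
    (∀ i, Cl ν (a i) 0) ∨ ∃ j, ∀ i, i ≠ j → Cl ν (a i * (ee z d j - ee z d i)) 0 := by
  have h4 := nu_four h2
  have h4l := nu_four_le h2
  have hz0 : z ≠ 0 := by
    rintro rfl
    simp at hz
  have hd0 : d ≠ 0 := by
    rintro rfl
    rw [map_zero] at hd1
    exact zero_ne_one hd1
  have hzz : ∀ i j : Fin 3, ν (z ^ (2 * (i : ℕ)) * z ^ (j : ℕ)) ≤ 1 := fun i j => by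
    rw [map_mul, nu_zpow ν hz, nu_zpow ν hz, one_mul]
  have hdiffv : ∀ i j : Fin 3, i ≠ j → ν (ee z d j - ee z d i) = 1 := by
    intro i j hij
    have e1 : ee z d j - ee z d i = d * (z ^ (i : ℕ) - z ^ (j : ℕ)) := by
      simp only [ee]
      ring
    rw [e1, pow_diff hz i j hij, map_mul, map_mul, map_pow, nu_zpow ν hz,
      nu_one_add h2 (hzz i j), hd1]
    simp
  rcases h with h | ⟨j, h⟩ | ⟨x, hx, h⟩
  · exact Or.inl fun i => (h i).cl
  · exact Or.inr ⟨j, fun i hi => (h i hi).cl⟩
  · obtain ⟨X, hX⟩ : ∃ X : Fin 3 → L, ∀ i, X i = x - ee z d i :=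
      ⟨fun i => x - ee z d i, fun _ => rfl⟩
    simp only [← hX] at h
    have hX0 : ∀ i, X i ≠ 0 := fun i h' => (h i).ne h4l.le (by rw [h', mul_zero])
    have hprod : X 0 * X 1 * X 2 = x ^ 3 + d ^ 3 := by rw [hX, hX, hX, prod_ee hz]
    have hdX : ∀ i j, X i - X j = ee z d j - ee z d i := fun i j => by rw [hX, hX, sub_ee]
    have hevn : IsSquare (ν (x ^ 3 + d ^ 3)) := hx.even h4l.le
    have hs0 : x ^ 3 + d ^ 3 ≠ 0 := hx.ne h4l.le
    have hd3 : ν (d ^ 3) = 1 := by rw [map_pow, hd1, one_pow]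
    rcases lt_trichotomy (ν x) 1 with hx1 | hx1 | hx1
    · -- `x` is divisible by `2`: impossible
      exfalso
      apply hdn
      have h5 : ν x ≤ exp (-1) := by
        by_cases hx0 : x = 0
        · rw [hx0, map_zero]
          exact zero_le
        · obtain ⟨n, hn⟩ := exists_nu ν hx0
          rw [hn, ← exp_zero, exp_lt_exp] at hx1
          rw [hn, exp_le_exp]
          omega
      have h6 : ν (x ^ 3) < ν 4 := by
        rw [map_pow, h4]
        calc ν x ^ 3 ≤ exp (-1) ^ 3 := by gcongr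
          _ = exp (-3) := by
            rw [← exp_nsmul]
            norm_num
          _ < exp (-2) := by
            rw [exp_lt_exp]
            norm_num
      have hs1 : ν (x ^ 3 + d ^ 3) = 1 := by
        rw [ν.map_add_eq_of_lt_right (by rw [hd3]; exact h6.trans h4l), hd3]
      have h7 : Sq ν (1 * (x ^ 3 + d ^ 3)) := by rwa [one_mul]
      have h8 : Sq ν (1 * d ^ 3) := by
        refine h7.near h4l.le ?_
        have e : d ^ 3 / (x ^ 3 + d ^ 3) - 1 = -(x ^ 3 / (x ^ 3 + d ^ 3)) := by
          rw [div_sub_one hs0, ← neg_div]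
          congr 1
          ring
        rw [e, Valuation.map_neg, map_div₀, hs1, div_one]
        exact h6
      have h9 : Sq ν d := by
        refine Sq.of_mul_sq hd0 ?_
        have e : d * d ^ 2 = 1 * d ^ 3 := by ring
        rwa [e]
      exact h9.cl
    · -- `x` is a unit
      right
      obtain ⟨j, hj⟩ := hres (x / d) (by rw [map_div₀, hx1, hd1, div_one])
      have hj' : ν (x - z ^ (j : ℕ) * d) < 1 := by
        have e : x - z ^ (j : ℕ) * d = d * (x / d - z ^ (j : ℕ)) := by
          field_simp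
        rw [e, map_mul, hd1, one_mul]
        exact hj
      have hXj : ν (X j) < 1 := by
        have e : X j = (x - z ^ (j : ℕ) * d) + 2 * (z ^ (j : ℕ) * d) := by
          rw [hX, ee]
          ring
        rw [e]
        refine ν.map_add_lt hj' ?_
        rw [map_mul, map_mul, nu_zpow ν hz, one_mul, hd1, mul_one, h2, ← exp_zero, exp_lt_exp]
        norm_num
      have hXi : ∀ i, i ≠ j → ν (X i) = 1 := by
        intro i hi
        have h5 := ν.map_add_eq_of_lt_left (x := X i - X j) (y := X j)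
          (by rw [hdX, hdiffv i j hi]; exact hXj)
        rwa [sub_add_cancel, hdX, hdiffv i j hi] at h5
      have hXj4 : ν (X j) ≤ ν 4 := by
        obtain ⟨n, hn⟩ := exists_nu ν (hX0 j)
        obtain ⟨l, k, hl, hk, hlk, hall, e⟩ := prod_split X j
        rw [← hprod, e, map_mul, map_mul, hXi l hl, hXi k hk, mul_one, mul_one, hn,
          isSquare_exp] at hevn
        rw [hn, ← exp_zero, exp_lt_exp] at hXj
        rw [hn, h4, exp_le_exp]
        obtain ⟨m, hm⟩ := hevn
        omega
      refine ⟨j, fun i hi => ?_⟩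
      have e : a i * (ee z d j - ee z d i) = (a i * X i) * ((ee z d j - ee z d i) / X i) := by
        have := hX0 i
        field_simp
      rw [e]
      refine cl_mul0 h2 (h i).cl (Cl.one ?_)
      have e2 : (ee z d j - ee z d i) / X i - 1 = -(X j / X i) := by
        rw [← hdX i j, sub_div, div_self (hX0 i)]
        ring
      rw [e2, Valuation.map_neg, map_div₀, hXi i hi, div_one]
      exact hXj4
    · -- `x` is not integral
      left
      have hx0 : x ≠ 0 := by
        rintro rfl
        rw [map_zero] at hx1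
        exact not_lt_zero' hx1
      obtain ⟨n, hn⟩ := exists_nu ν hx0
      have hn0 : 0 < n := by rwa [hn, ← exp_zero, exp_lt_exp] at hx1
      have hx3 : ν (x ^ 3) = exp (3 * n) := by
        rw [map_pow, hn, ← exp_nsmul]
        norm_num
      have hs3 : ν (x ^ 3 + d ^ 3) = exp (3 * n) := by
        rw [ν.map_add_eq_of_lt_left (by
          rw [hx3, hd3, ← exp_zero, exp_lt_exp]
          omega), hx3]
      rw [hs3, isSquare_exp] at hevn
      obtain ⟨m, hm⟩ := hevn
      have hn2 : 2 ≤ n := by omega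
      have hxs : Sq ν x := by
        refine Sq.of_mul_sq hx0 ?_
        have h5 : Sq ν (1 * (x ^ 3 + d ^ 3)) := by rwa [one_mul]
        have h6 : Sq ν (1 * x ^ 3) := by
          refine h5.near h4l.le ?_
          have e : x ^ 3 / (x ^ 3 + d ^ 3) - 1 = -(d ^ 3 / (x ^ 3 + d ^ 3)) := by
            rw [div_sub_one hs0]
            rw [← neg_div]
            congr 1
            ring
          rw [e, Valuation.map_neg, map_div₀, hd3, hs3, h4, one_div, ← exp_neg, exp_lt_exp]
          omega
        have e : x * x ^ 2 = 1 * x ^ 3 := by ring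
        rwa [e]
      intro i
      have h0 : ν (0 : L) ≤ 1 := by rw [map_zero]; exact zero_le
      refine Cl.of_sq h2 (h i) h0 (Cl.near h2 hx0 h0 hxs.cl ?_)
      have e : X i / x - 1 = z ^ (i : ℕ) * d / x := by
        rw [hX, ee, div_sub_one hx0]
        congr 1
        ring
      rw [e, map_div₀, map_mul, nu_zpow ν hz, hd1, one_mul, hn, h4, one_div, ← exp_neg, exp_le_exp]
      omega

end Pool.Agent.Lib.MP_1a91b9_ntH2.C
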