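import Pool.Agent.Lib.MP_1a91b9_ntH.C.Hyp
import Pool.Agent.Lib.MP_1a91b9_ntH2.C.V2
import Pool.Agent.Lib.MP_1a91b9_ntH2.R.DefsC

/-!
# MP_1a91b9_nt (TwistDensity), phase 2, part C: the hypotheses of the local theorems for `dlc c S`
-/

set_option autoImplicit false
set_option linter.unusedSectionVars false

namespace Pool.Agent.Lib.MP_1a91b9_ntH2.C

open NumberField IsDedekindDomain WithZero Finset Pool.Agent.Lib.MP_1a91b9_ntT
  Pool.Agent.Lib.MP_1a91b9_ntH Pool.Agent.Lib.MP_1a91b9_ntH.C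

noncomputable section

theorem val_dlc (c : F4) (v : HeightOneSpectrum (𝓞 K)) (S : Finset Pq) :
    v.valuation K ((dlc c S : 𝓞 K) : K) =
      (if (qd.A S + c).b = 0 then 1 else v.valuation K (s3 : K)) *
        ∏ q ∈ S, v.valuation K ((q.1 : 𝓞 K) : K) := by
  rw [dlc, ← val_DD]
  have e : ∀ x y z : 𝓞 K, (((x * y * z : 𝓞 K)) : K) = (x : K) * (y : K) * (z : K) := fun x y z => by
    push_cast
    rfl
  rw [e, map_mul, map_mul]
  congr 1
  have h2 : v.valuation K (((if (qd.A S + c).a = 0 then 1 else -1 : 𝓞 K) : 𝓞 K) : K) = 1 := by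
    split_ifs
    · simp
    · simp
  rw [h2, mul_one]
  split_ifs
  · simp
  · rfl

/-- the good places -/
theorem hypc_good (c : F4) (S : Finset Pq) (v : HeightOneSpectrum (𝓞 K))
    (h2 : (2 : 𝓞 K) ∉ v.asIdeal) (h3 : s3 ∉ v.asIdeal) (hS : ∀ q ∈ S, q.1 ∉ v.asIdeal) :
    v.valuation K 4 = 1 ∧ ∀ i j, i ≠ j →
      v.valuation K (ee om ((dlc c S : 𝓞 K) : K) i - ee om ((dlc c S : 𝓞 K) : K) j) =
        exp (2 * 0) := by
  refine ⟨four_val h2, fun i j hij => ?_⟩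
  rw [val_ee _ _ i j hij, val_dlc, val_one h3,
    Finset.prod_eq_one fun q hq => val_one (hS q hq)]
  simp

/-- the places which divide `D` -/
theorem hypc_bad (c : F4) (S : Finset Pq) (v : HeightOneSpectrum (𝓞 K)) (q : Pq) (hq : q ∈ S)
    (h : q.1 ∈ v.asIdeal) :
    v.valuation K 4 = 1 ∧ ∀ i j, i ≠ j →
      v.valuation K (ee om ((dlc c S : 𝓞 K) : K) i - ee om ((dlc c S : 𝓞 K) : K) j) =
        exp (2 * (-1) + 1) := by
  refine ⟨four_val (two_notMem_q h), fun i j hij => ?_⟩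
  rw [val_ee _ _ i j hij, val_dlc, val_one (s3_notMem_q h), ← Finset.mul_prod_erase _ _ hq,
    Finset.prod_eq_one fun p hp => val_one fun h1 => (Finset.ne_of_mem_erase hp) (eq_of_mem h1 h),
    val_prime q.2.1 h]
  simp

/-- the place above `3` -/
theorem hypc_s3 (c : F4) (S : Finset Pq) (v : HeightOneSpectrum (𝓞 K)) (h : s3 ∈ v.asIdeal) :
    v.valuation K 4 = 1 ∧ ∀ i j, i ≠ j →
      v.valuation K (ee om ((dlc c S : 𝓞 K) : K) i - ee om ((dlc c S : 𝓞 K) : K) j) =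
        exp (if (qd.A S + c).b = 0 then -1 else -2) := by
  refine ⟨four_val (two_notMem_s3 h), fun i j hij => ?_⟩
  rw [val_ee _ _ i j hij, val_dlc, Finset.prod_eq_one fun q _ => val_one (notMem_of_s3 h q),
    val_prime s3_prime h, mul_one]
  split_ifs
  · rw [one_mul]
  · rw [← exp_add]
    norm_num

/-! ### the class modulo 4 -/

/-- the class of `dlc c S` is `c` -/
theorem Cr.dlc (c : F4) (S : Finset Pq) : Cr (MP_1a91b9_ntH2.dlc c S) c := by
  have h : Cr (MP_1a91b9_ntH2.dlc c S) ((if (qd.A S + c).b = 0 then 0 else F4.w) +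
      (if (qd.A S + c).a = 0 then 0 else 1) + qd.A S) := by
    refine Cr.mul (Cr.mul ?_ ?_) (Cr.DD S)
    · split_ifs
      · exact Cr.one
      · exact Cr.s3
    · split_ifs
      · exact Cr.one
      · exact Cr.neg_one
  have e : ∀ x c : F4, (if (x + c).b = 0 then 0 else F4.w) + (if (x + c).a = 0 then 0 else 1) + x =
    c := by decide
  rwa [e] at h

/-- an element with a class is prime to `2` -/
theorem Cr.notMem {v : HeightOneSpectrum (𝓞 K)} (h : (2 : 𝓞 K) ∈ v.asIdeal) {x : 𝓞 K} {t : F4}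
    (hx : Cr x t) : x ∉ v.asIdeal := by
  obtain ⟨y, rfl, -⟩ := hx
  intro h1
  apply v.isPrime.ne_top
  rw [Ideal.eq_top_iff_one]
  have e : (1 : 𝓞 K) = (1 + 2 * y) - 2 * y := by ring
  rw [e]
  exact v.asIdeal.sub_mem h1 (v.asIdeal.mul_mem_right _ h)

/-- the class of an element of `𝓞 K` modulo squares of `K` and modulo `4` -/
theorem cr_of_cl {v : HeightOneSpectrum (𝓞 K)} (h : (2 : 𝓞 K) ∈ v.asIdeal) {x y : 𝓞 K} {t : F4}
    (hx : Cr x t) (hc : Cl (v.valuation K) (x : K) (y : K)) : t = red y := by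
  have h2 := val_four h
  have h4l := nu_four_le h2
  obtain ⟨b, hb, hb4⟩ := hc
  have hxv : v.valuation K (x : K) = 1 := val_one (Cr.notMem h hx)
  have hyv : v.valuation K (y : K) ≤ 1 := val_le v y
  have h1 : v.valuation K ((x : K) / b ^ 2) = 1 := by
    have e : (x : K) / b ^ 2 = (1 + 2 * (y : K)) + ((x : K) / b ^ 2 - (1 + 2 * (y : K))) := by ring
    rw [e, (v.valuation K).map_add_eq_of_lt_left (by
      rw [nu_one_add h2 hyv]
      exact lt_of_le_of_lt hb4 h4l), nu_one_add h2 hyv]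
  have hbv : v.valuation K b = 1 := by
    rw [map_div₀, map_pow, hxv, one_div, inv_eq_one] at h1
    exact (pow_eq_one_iff_of_nonneg zero_le (by norm_num)).1 h1
  obtain ⟨j, hj⟩ := res_two h b hbv
  -- `b = w ^ j` modulo `2`
  obtain ⟨z, hz⟩ : ∃ z : K, z = (wO ^ (j : ℕ) : 𝓞 K) := ⟨_, rfl⟩
  have hz' : z = om ^ (j : ℕ) := by
    rw [hz, ← coe_wO]
    push_cast
    rfl
  rw [← hz'] at hj
  have hj2 : v.valuation K (b - z) ≤ exp (-1) := by
    by_cases h0 : b - z = 0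
    · rw [h0, map_zero]
      exact zero_le
    · obtain ⟨n, hn⟩ := exists_nu (v.valuation K) h0
      rw [hn, ← exp_zero, exp_lt_exp] at hj
      rw [hn, exp_le_exp]
      omega
  have hzv : v.valuation K z = 1 := by
    rw [hz', nu_zpow _ om_quad]
  -- `x = w ^ (2 j) (1 + 2 y)` modulo `4`
  have h5 : v.valuation K ((x : K) - z ^ 2 * (1 + 2 * (y : K))) ≤ v.valuation K 4 := by
    have e : (x : K) - z ^ 2 * (1 + 2 * (y : K)) = b ^ 2 * ((x : K) / b ^ 2 - (1 + 2 * (y : K))) +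
        ((b - z) ^ 2 + 2 * (z * (b - z))) * (1 + 2 * (y : K)) := by
      field_simp
      ring
    have e4 : v.valuation K 4 = exp (-1) * exp (-1) := by
      rw [nu_four h2, ← exp_add]
      norm_num
    rw [e]
    refine (v.valuation K).map_add_le ?_ ?_
    · rw [map_mul, map_pow, hbv, one_pow, one_mul]
      exact hb4
    · rw [map_mul, nu_one_add h2 hyv, mul_one, e4]
      refine (v.valuation K).map_add_le ?_ ?_
      · rw [map_pow, sq]
        gcongr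
      · rw [map_mul, map_mul, hzv, one_mul, h2]
        gcongr
  have h6 : (4 : 𝓞 K) ∣ x - (wO ^ (j : ℕ)) ^ 2 * (1 + 2 * y) := by
    rw [← le_four_iff h]
    have e : ((x - (wO ^ (j : ℕ)) ^ 2 * (1 + 2 * y) : 𝓞 K) : K) =
        (x : K) - z ^ 2 * (1 + 2 * (y : K)) := by
      have e1 : ((x - (wO ^ (j : ℕ)) ^ 2 * (1 + 2 * y) : 𝓞 K) : K) =
        algebraMap (𝓞 K) K (x - (wO ^ (j : ℕ)) ^ 2 * (1 + 2 * y)) := rfl
      rw [e1, map_sub, map_mul, map_pow, map_add, map_mul, map_one, map_ofNat, hz]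
    rw [e]
    exact h5
  obtain ⟨g, hg, rfl⟩ := hx
  -- `j = 0`
  have h7 : red (1 + 2 * g) = red ((wO ^ (j : ℕ)) ^ 2 * (1 + 2 * y)) := by
    rw [red_eq]
    exact dvd_trans ⟨2, by norm_num⟩ (hg ▸ h6)
  have h8 : F4.w ^ (j : ℕ) = 1 := by
    have hr : ∀ s : 𝓞 K, red (1 + 2 * s) = 1 := fun s => by
      rw [map_add, map_mul, map_one, map_ofNat]
      have h2 : (2 : F4) = 0 := CharTwo.two_eq_zero
      rw [h2, zero_mul, add_zero]
    rw [map_mul, hr, hr, mul_one, map_pow, map_pow, red_w] at h7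
    have h9 : ∀ s : F4, 1 = s ^ 2 → s = 1 := by decide
    exact h9 _ h7
  have hj0 : j = 0 := by
    have h9 : ∀ i : Fin 3, F4.w ^ (i : ℕ) = 1 → i = 0 := by decide
    exact h9 j h8
  subst hj0
  rw [hg] at h6
  obtain ⟨m, hm⟩ := h6
  rw [red_eq]
  refine ⟨m, mul_left_cancel₀ (two_ne_zero (α := 𝓞 K)) ?_⟩
  simp only [Fin.val_zero, pow_zero, one_pow, one_mul] at hm
  linear_combination hm

/-- `x` has class `t` and is a square modulo `4` in `K`: `t = 0` -/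
theorem cr_of_cl_zero {v : HeightOneSpectrum (𝓞 K)} (h : (2 : 𝓞 K) ∈ v.asIdeal) {x : 𝓞 K} {t : F4}
    (hx : Cr x t) (hc : Cl (v.valuation K) (x : K) 0) : t = 0 := by
  have h1 : Cl (v.valuation K) (x : K) ((0 : 𝓞 K) : K) := by
    have e : ((0 : 𝓞 K) : K) = 0 := map_zero (algebraMap (𝓞 K) K)
    rwa [e]
  rw [cr_of_cl h hx h1, map_zero]

/-- the converse -/
theorem cl_of_cr {v : HeightOneSpectrum (𝓞 K)} (h : (2 : 𝓞 K) ∈ v.asIdeal) {x : 𝓞 K}
    (hx : Cr x 0) : Cl (v.valuation K) (x : K) 0 := by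
  refine Cl.one ?_
  have e : (x : K) - 1 = ((x - 1 : 𝓞 K) : K) := by
    push_cast
    rfl
  rw [e, le_four_iff h]
  exact Cr.four.1 hx

/-- the place above `2` -/
theorem hypc_two {c : F4} (hc : c ≠ 0) (S : Finset Pq) (v : HeightOneSpectrum (𝓞 K))
    (h : (2 : 𝓞 K) ∈ v.asIdeal) :
    v.valuation K 2 = exp (-1) ∧ v.valuation K ((dlc c S : 𝓞 K) : K) = 1 ∧
      (¬ Cl (v.valuation K) ((dlc c S : 𝓞 K) : K) 0) ∧
      ∀ x : K, v.valuation K x = 1 → ∃ j : Fin 3, v.valuation K (x - om ^ (j : ℕ)) < 1 :=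
  ⟨val_four h, val_one (Cr.notMem h (Cr.dlc c S)), fun h1 => hc (cr_of_cl_zero h (Cr.dlc c S) h1),
    res_two h⟩

theorem dlc_ne_zero (c : F4) (S : Finset Pq) : dlc c S ≠ 0 := by
  obtain ⟨v, hv⟩ : ∃ v : HeightOneSpectrum (𝓞 K), (2 : 𝓞 K) ∈ v.asIdeal :=
    ⟨⟨Ideal.span {2}, (Ideal.span_singleton_prime two_prime.ne_zero).2 two_prime, by
      rw [Ne, Ideal.span_singleton_eq_bot]
      exact two_prime.ne_zero⟩, Ideal.mem_span_singleton_self _⟩
  intro h
  apply Cr.notMem hv (Cr.dlc c S)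
  rw [h]
  exact v.asIdeal.zero_mem

/-- **the local theorem at 2 for `dlc c S`**, `c ≠ 0` -/
theorem loc_two_c {c : F4} (hc : c ≠ 0) (S : Finset Pq) (v : HeightOneSpectrum (𝓞 K))
    (h : (2 : 𝓞 K) ∈ v.asIdeal) (a : Fin 3 → K)
    (hl : GLoc (v.valuation K) om ((dlc c S : 𝓞 K) : K) a) :
    (∀ i, Cl (v.valuation K) (a i) 0) ∨ ∃ j, ∀ i, i ≠ j →
      Cl (v.valuation K) (a i * (ee om ((dlc c S : 𝓞 K) : K) j - ee om ((dlc c S : 𝓞 K) : K) i)) 0 := by
  obtain ⟨h2, h1, hn, hr⟩ := hypc_two hc S v h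
  exact loc_two' (v.valuation K) om_quad h2 h1 hn hr a hl

end

end Pool.Agent.Lib.MP_1a91b9_ntH2.C
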