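import Pool.Agent.Lib.MP_1a91b9_ntH.C.PerC

/-!
# MP_1a91b9_nt (TwistDensity), phase 2, block Per: the 2-part from the value of the L-series

`δ` squarefree, `2 ∣ δ - 1`, `ε³ = 1 / 2`, `‖κ‖² = ρ ‖ε‖²` with a unit `ρ` above `2`,
`ν = 6 L / (Om κ 2^r)`, `g₁ = (3/4)^e |L|²`, `Ω = 3^e √3 |Om|² |ε|² / |δ|`:
`g₁ √3 / Ω = 4^(r - e) ρ |ν|² |δ| / 36`.
-/

set_option autoImplicit false

namespace Pool.Agent.Lib.MP_1a91b9_ntH2

open NumberField IsDedekindDomain WeierstrassCurve Pool.Agent.Lib.MP_1a91b9_ntT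
open Pool.Agent.Lib.MP_1a91b9_ntH Pool.Agent.Lib.MP_1a91b9_ntH.C
open Pool.Agent.Lib.MP_1a91b9_ntT.S9 (tam normFactor period)
open Pool.Agent.Lib.MP_1a91b9_ntT3.S9 (UnitAt ShaP PPart PPartQ unitAt_of_val ppartQ_of)
open scoped Classical

section val
variable {A : ValuationSubring ℂ}

private theorem perg_conj {x : ℂ} (h : (A.comap (starRingEnd ℂ)).valuation x = 1) :
    A.valuation ((starRingEnd ℂ) x) = 1 := by
  have h0 : x ≠ 0 := by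
    rintro rfl
    rw [map_zero] at h
    exact zero_ne_one h
  have h1 : x ∈ A.comap (starRingEnd ℂ) := by
    rw [← ValuationSubring.valuation_le_one_iff, h]
  have h2 : x⁻¹ ∈ A.comap (starRingEnd ℂ) := by
    rw [← ValuationSubring.valuation_le_one_iff, map_inv₀, h, inv_one]
  rw [ValuationSubring.mem_comap] at h1 h2
  rw [map_inv₀] at h2
  have h3 := (A.valuation_le_one_iff _).2 h1
  have h4 := (A.valuation_le_one_iff _).2 h2
  rw [map_inv₀] at h4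
  refine le_antisymm h3 ?_
  have h5 : A.valuation ((starRingEnd ℂ) x) ≠ 0 := by
    rw [Valuation.ne_zero_iff]
    exact (map_ne_zero _).2 h0
  exact (inv_le_one₀ (zero_lt_iff.2 h5)).1 h4

private theorem perg_normsq {y : ℂ} (h : A.valuation y = 1)
    (h' : (A.comap (starRingEnd ℂ)).valuation y = 1) :
    A.valuation ((‖y‖ ^ 2 : ℝ) : ℂ) = 1 := by
  rw [Complex.ofReal_pow, ← Complex.conj_mul', map_mul, perg_conj h', h, one_mul]

private theorem perg_comap (hA : Two A) : Two (A.comap (starRingEnd ℂ)) := by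
  intro h
  apply hA
  rw [ValuationSubring.mem_comap, map_inv₀, map_ofNat] at h
  exact h

private theorem perg_pow {y : ℂ} {n : ℕ} (hn : n ≠ 0) (h : A.valuation (y ^ n) = 1) :
    A.valuation y = 1 := by
  rw [map_pow] at h
  exact (pow_eq_one_iff_of_nonneg zero_le hn).1 h

private theorem perg_odd (hA : Two A) {n : ℕ} (hn : Odd n) : A.valuation (n : ℂ) = 1 := by
  have h := S3.v_odd hA (n := (n : ℤ)) (by exact_mod_cast hn)
  simpa using h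

end val

private theorem perg_two {A : ValuationSubring ℂ} (hA : ((2 : ℕ) : ℂ)⁻¹ ∉ A) : Two A := by
  intro h
  exact hA (by simpa using h)

private theorem perg_Lsq {L κ : ℂ} (n : ℕ) (hκ0 : κ ≠ 0) :
    ‖L‖ ^ 2 = ‖L * 6 / (Om * κ * 2 ^ n)‖ ^ 2 * (‖Om‖ ^ 2 * ‖κ‖ ^ 2) * 4 ^ n / 36 := by
  have h1 : ‖Om‖ ≠ 0 := norm_ne_zero_iff.2 Om_ne_zero
  have h2 : ‖κ‖ ≠ 0 := norm_ne_zero_iff.2 hκ0
  have h4 : (4 : ℝ) ^ n = 2 ^ n * 2 ^ n := by
    rw [← mul_pow]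
    norm_num
  rw [norm_div, norm_mul, norm_mul, norm_mul, norm_pow, h4]
  have h6 : ‖(6 : ℂ)‖ = 6 := by norm_num
  have h7 : ‖(2 : ℂ)‖ = 2 := by norm_num
  rw [h6, h7]
  have h8 : (2 : ℝ) ^ n ≠ 0 := by positivity
  field_simp
  norm_num

private theorem perg_g {g1 L : ℂ} {δ : 𝓞 K}
    (hg : g1 * (if s3 ∣ δ then 4 / 3 else 1) = L * (starRingEnd ℂ) L) :
    g1 = ((‖L‖ ^ 2 * (if s3 ∣ δ then 3 / 4 else 1) : ℝ) : ℂ) := by
  have h1 : L * (starRingEnd ℂ) L = ((‖L‖ ^ 2 : ℝ) : ℂ) := by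
    rw [Complex.mul_conj, Complex.normSq_eq_norm_sq]
  rw [h1] at hg
  split_ifs at hg ⊢
  · rw [Complex.ofReal_mul, ← hg]
    push_cast
    ring
  · rw [mul_one] at hg
    rw [hg, mul_one]

/-- The 2-part of the formula from the 2-adic value of `L`. -/
theorem formula_gen {δ : 𝓞 K} (hsq : Squarefree δ) (h2 : (2 : 𝓞 K) ∣ δ - 1) {r : ℕ}
    {ε κ L g1 : ℂ} (hε : ε ^ 3 = 1 / 2) {ρ : ℝ} (hρ : 0 < ρ)
    (hρA : ∀ A : ValuationSubring ℂ, Two A → A.valuation (ρ : ℂ) = 1)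
    (hκ : ‖κ‖ ^ 2 = ρ * ‖ε‖ ^ 2)
    (hg : g1 * (if s3 ∣ δ then 4 / 3 else 1) = L * (starRingEnd ℂ) L)
    (hν : ∀ A : ValuationSubring ℂ, Two A → A.valuation (L * 6 / (Om * κ * 2 ^ r)) = 1)
    (hL : L ≠ 0) {c t C T : ℕ} (hc : Odd c) (hC : C = 4 * c) (ht : Odd t)
    (hT : T * (if s3 ∣ δ then 4 else 1) = 4 ^ (r + 1) * t) :
    ∃ x : ℝ, UnitAt 2 x ∧ g1 * (√|(discr K : ℝ)| : ℝ) / (period (cv (δ : K)) : ℝ) =
      (x * ((1 : ℝ) * (T : ℝ) / (C : ℝ) ^ 2) : ℝ) := by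
  have hε0 : ε ≠ 0 := by
    rintro rfl
    norm_num at hε
  have he : 0 < ‖ε‖ := norm_pos_iff.2 hε0
  have hκ0 : κ ≠ 0 := by
    rintro rfl
    rw [norm_zero] at hκ
    have h3 : 0 < ρ * ‖ε‖ ^ 2 := by positivity
    rw [← hκ] at h3
    norm_num at h3
  have hδ0 : em δ ≠ 0 := by
    rw [MP_1a91b9_ntH.em, Ne, map_eq_zero]
    exact fun h => hsq.ne_zero (RingOfIntegers.ext h)
  have hn0 : 0 < ‖em δ‖ := norm_pos_iff.2 hδ0
  have hOm : 0 < ‖Om‖ := norm_pos_iff.2 Om_ne_zero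
  obtain ⟨ν, hνd⟩ : ∃ ν, ν = L * 6 / (Om * κ * 2 ^ r) := ⟨_, rfl⟩
  have hν0 : ν ≠ 0 := by
    rw [hνd]
    have h3 : (2 : ℂ) ^ r ≠ 0 := pow_ne_zero _ two_ne_zero
    exact div_ne_zero (mul_ne_zero hL (by norm_num)) (mul_ne_zero (mul_ne_zero Om_ne_zero hκ0) h3)
  have hνn : 0 < ‖ν‖ := norm_pos_iff.2 hν0
  rw [← hνd] at hν
  have hc0 : (c : ℝ) ≠ 0 := by
    rintro h
    have : c = 0 := by exact_mod_cast h
    rw [this] at hc
    exact absurd hc (by decide)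
  have ht0 : (t : ℝ) ≠ 0 := by
    rintro h
    have : t = 0 := by exact_mod_cast h
    rw [this] at ht
    exact absurd ht (by decide)
  refine ⟨ρ * ‖ν‖ ^ 2 * ‖em δ‖ * (c : ℝ) ^ 2 / (9 * t), ?_, ?_⟩
  · refine unitAt_of_val Nat.prime_two ?_ fun A hA => ?_
    · positivity
    · have hA2 := perg_two hA
      have e1 : A.valuation ((‖ν‖ ^ 2 : ℝ) : ℂ) = 1 :=
        perg_normsq (hν A hA2) (hν _ (perg_comap hA2))
      have e2 : A.valuation ((‖em δ‖ : ℝ) : ℂ) = 1 := by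
        refine perg_pow (n := 2) two_ne_zero ?_
        have h3 := Nz_eq δ
        have h4 : ((‖em δ‖ : ℝ) : ℂ) ^ 2 = ((Nz δ : ℕ) : ℂ) := by
          rw [← Complex.ofReal_pow]
          have h5 : ‖em δ‖ ^ 2 = ((Nz δ : ℕ) : ℝ) := h3.symm
          rw [h5]
          push_cast
          rfl
        rw [h4]
        exact perg_odd hA2 (Nz_odd h2)
      have e3 : A.valuation (9 : ℂ) = 1 := by
        have := perg_odd hA2 (n := 9) (by decide)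
        simpa using this
      have e4 : (((ρ * ‖ν‖ ^ 2 * ‖em δ‖ * (c : ℝ) ^ 2 / (9 * t) : ℝ)) : ℂ) =
          (ρ : ℂ) * ((‖ν‖ ^ 2 : ℝ) : ℂ) * ((‖em δ‖ : ℝ) : ℂ) * (c : ℂ) ^ 2 / (9 * (t : ℂ)) := by
        push_cast
        ring
      rw [e4, map_div₀, map_mul, map_mul, map_mul, map_mul, map_pow, e1, e2, perg_odd hA2 hc,
        perg_odd hA2 ht, e3, hρA A hA2]
      simp
  · have hper := period_cv hsq h2 hε
    rw [perg_g hg, sqrt_discr_K, hper, ← Complex.ofReal_mul, ← Complex.ofReal_div,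
      perg_Lsq r hκ0, ← hνd, hC, hκ]
    congr 1
    have h3 : (√3 : ℝ) ≠ 0 := by positivity
    by_cases hd : s3 ∣ δ
    · rw [if_pos hd] at hT
      have hT' : (T : ℝ) = 4 ^ r * t := by
        have h5 : T = 4 ^ r * t := by
          have h6 : 4 ^ (r + 1) * t = (4 ^ r * t) * 4 := by ring
          rw [h6] at hT
          omega
        rw [h5]
        push_cast
        rfl
      rw [if_pos hd, if_pos hd, hT']
      push_cast
      field_simp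
      norm_num
    · rw [if_neg hd, mul_one] at hT
      have hT' : (T : ℝ) = 4 * 4 ^ r * t := by
        rw [hT]
        push_cast
        ring
      rw [if_neg hd, if_neg hd, hT']
      push_cast
      field_simp
      norm_num

/-- The rational form. -/
theorem rat_gen {δ : 𝓞 K} (hsq : Squarefree δ) {ε L g1 : ℂ} (hε : ε ^ 3 = 1 / 2)
    (hg : g1 * (if s3 ∣ δ then 4 / 3 else 1) = L * (starRingEnd ℂ) L)
    (hrat : ∃ q : ℚ, ‖L‖ ^ 2 * ‖em δ‖ = (q : ℝ) * (‖Om‖ * ‖ε‖) ^ 2) :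
    ∃ q : ℚ, g1 * (√|(discr K : ℝ)| : ℝ) =
      (q : ℂ) * (∏ v : InfinitePlace K, Per.perAt (cv (δ : K)) v : ℝ) := by
  have hε0 : ε ≠ 0 := by
    rintro rfl
    norm_num at hε
  have hδ0 : em δ ≠ 0 := by
    rw [MP_1a91b9_ntH.em, Ne, map_eq_zero]
    exact fun h => hsq.ne_zero (RingOfIntegers.ext h)
  have hn0 : 0 < ‖em δ‖ := norm_pos_iff.2 hδ0
  have hOm : 0 < ‖Om‖ := norm_pos_iff.2 Om_ne_zero
  have he : 0 < ‖ε‖ := norm_pos_iff.2 hε0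
  have hδK : (δ : K) ≠ 0 := fun h => hsq.ne_zero (RingOfIntegers.ext h)
  obtain ⟨q, hq⟩ := hrat
  have hL : ‖L‖ ^ 2 = (q : ℝ) * (‖Om‖ * ‖ε‖) ^ 2 / ‖em δ‖ := by
    rw [← hq]
    field_simp
  refine ⟨q * (if s3 ∣ δ then 3 / 4 else 1), ?_⟩
  have hem : ‖embK (δ : K)‖ = ‖em δ‖ := rfl
  have key : (‖L‖ ^ 2 * (if s3 ∣ δ then 3 / 4 else 1) : ℝ) * √3 =
      ((q * (if s3 ∣ δ then 3 / 4 else 1) : ℚ) : ℝ) *
        (√3 * (‖Om‖ ^ 2 * ‖ε‖ ^ 2 / ‖em δ‖)) := by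
    rw [hL]
    split_ifs
    · push_cast
      field_simp
    · push_cast
      field_simp
  rw [perg_g hg, sqrt_discr_K, prod_perAt_cv hδK hε, hem, ← Complex.ofReal_mul, key,
    Complex.ofReal_mul, Complex.ofReal_ratCast]

/-- **The 2-part, strong form**, for `y² = x³ + δ³`. -/
theorem ppartQ_gen {δ : 𝓞 K} (hsq : Squarefree δ) (h2 : (2 : 𝓞 K) ∣ δ - 1) {r : ℕ}
    {ε κ L : ℂ} (hε : ε ^ 3 = 1 / 2) {ρ : ℝ} (hρ : 0 < ρ)
    (hρA : ∀ A : ValuationSubring ℂ, Two A → A.valuation (ρ : ℂ) = 1)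
    (hκ : ‖κ‖ ^ 2 = ρ * ‖ε‖ ^ 2) {g : ℂ → ℂ} (hgd : Differentiable ℂ g)
    (hgs : ∀ s : ℂ, 3 / 2 < s.re → g s = (cv (δ : K)).LSeries s)
    (hg : g 1 * (if s3 ∣ δ then 4 / 3 else 1) = L * (starRingEnd ℂ) L)
    (hν : ∀ A : ValuationSubring ℂ, Two A → A.valuation (L * 6 / (Om * κ * 2 ^ r)) = 1)
    (hL : L ≠ 0) (hfin : Finite (cv (δ : K)).toAffine.Point) {c t : ℕ} (hc : Odd c)
    (hC : Nat.card (cv (δ : K)).toAffine.Point = 4 * c) (ht : Odd t)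
    (hT : (∏ᶠ v : HeightOneSpectrum (𝓞 K), tam (cv (δ : K)) v) *
      (if s3 ∣ δ then 4 else 1) = 4 ^ (r + 1) * t)
    (hsha : Nat.card (ShaP 2 (cv (δ : K))) = 1)
    (hrat : ∃ q : ℚ, ‖L‖ ^ 2 * ‖em δ‖ = (q : ℝ) * (‖Om‖ * ‖ε‖) ^ 2) :
    PPartQ 2 (cv (δ : K)) := by
  obtain ⟨x, hx, he⟩ := formula_gen hsq h2 hε hρ hρA hκ hg hν hL hc hC ht hT
  have hg0 : g 1 ≠ 0 := by
    intro h0
    rw [h0, zero_mul] at hg
    exact mul_ne_zero hL ((map_ne_zero _).2 hL) hg.symm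
  have hf : Finite (ShaP 2 (cv (δ : K))) :=
    Nat.finite_of_card_ne_zero (by rw [hsha]; exact one_ne_zero)
  obtain ⟨q, hq⟩ := rat_gen hsq hε hg hrat
  refine ppartQ_of ⟨g, x, hgd, hgs, hg0, hfin, hf, hx, ?_⟩
    ⟨g, q, hgd, fun s hs => hgs s (by linarith), hq⟩
  rw [hsha, Nat.cast_one]
  exact he

/-- The value of `√3` above `2`. -/
theorem val_sqrt3 {A : ValuationSubring ℂ} (hA : Two A) : A.valuation ((√3 : ℝ) : ℂ) = 1 :=
  Per.val_sqrt_three hA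

theorem val_three {A : ValuationSubring ℂ} (hA : Two A) : A.valuation ((3 : ℝ) : ℂ) = 1 := by
  have := perg_odd hA (n := 3) (by decide)
  simpa using this

/-- The constants of phase 2: `κ² = -3 a` -/
theorem norm_kap_one {ε κ a : ℂ} (hε : ε ^ 3 = 1 / 2) (ha : a ^ 3 = -1 / 4)
    (hκ : κ ^ 2 = -3 * a) : ‖κ‖ ^ 2 = 3 * ‖ε‖ ^ 2 := by
  have h1 : ‖a‖ = ‖ε‖ ^ 2 := by
    have h2 : ‖a‖ ^ 3 = (‖ε‖ ^ 2) ^ 3 := by
      rw [← pow_mul, mul_comm 2 3, pow_mul, ← norm_pow, ← norm_pow, ha, hε]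
      norm_num
    exact (pow_left_inj₀ (norm_nonneg a) (by positivity) (by norm_num)).1 h2
  rw [← norm_pow, hκ, norm_mul, h1]
  norm_num

/-- The constants of phase 2: `κ² = (a - b) d / a`, where `a`, `b`, `d` are the three cube roots of
`-1 / 4`. -/
theorem norm_kap_two {ε κ a b d : ℂ} (hε : ε ^ 3 = 1 / 2) (ha : a ^ 3 = -1 / 4)
    (hb : b ^ 3 = -1 / 4) (hd : d ^ 3 = -1 / 4) (hab : a ≠ b)
    (hκ : κ ^ 2 = (a - b) * d / a) : ‖κ‖ ^ 2 = √3 * ‖ε‖ ^ 2 := by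
  have hn : ∀ x : ℂ, x ^ 3 = -1 / 4 → ‖x‖ = ‖ε‖ ^ 2 := by
    intro x hx
    have h2 : ‖x‖ ^ 3 = (‖ε‖ ^ 2) ^ 3 := by
      rw [← pow_mul, mul_comm 2 3, pow_mul, ← norm_pow, ← norm_pow, hx, hε]
      norm_num
    exact (pow_left_inj₀ (norm_nonneg x) (by positivity) (by norm_num)).1 h2
  have ha0 : a ≠ 0 := by
    rintro rfl
    norm_num at ha
  have h3 : a ^ 2 + a * b + b ^ 2 = 0 := by
    have h4 : (a - b) * (a ^ 2 + a * b + b ^ 2) = 0 := by linear_combination ha - hb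
    exact (mul_eq_zero.1 h4).resolve_left (sub_ne_zero.2 hab)
  have h5 : (a - b) ^ 2 = -3 * (a * b) := by linear_combination h3
  have h6 : ‖a - b‖ = √3 * ‖ε‖ ^ 2 := by
    have h7 : ‖a - b‖ ^ 2 = (√3 * ‖ε‖ ^ 2) ^ 2 := by
      rw [← norm_pow, h5, norm_mul, norm_mul, hn a ha, hn b hb, mul_pow,
        Real.sq_sqrt (by norm_num)]
      norm_num
      ring
    exact (pow_left_inj₀ (norm_nonneg _) (by positivity) two_ne_zero).1 h7
  have h8 : ‖a‖ ≠ 0 := norm_ne_zero_iff.2 ha0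
  rw [← norm_pow, hκ, norm_div, norm_mul, hn d hd, ← hn a ha, h6, ← hn a ha]
  field_simp

end Pool.Agent.Lib.MP_1a91b9_ntH2
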