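import Pool.Agent.Lib.MP_1a91b9_ntH.C.Tam
import Pool.Agent.Lib.MP_1a91b9_ntH2.C.HypC

/-!
# MP_1a91b9_nt (TwistDensity), phase 2, block C-tam: the product of the Tamagawa numbers for `dlc c S`
-/

set_option autoImplicit false

namespace Pool.Agent.Lib.MP_1a91b9_ntH2.C

open NumberField IsDedekindDomain Finset Pool.Agent.Lib.MP_1a91b9_ntT Pool.Agent.Lib.MP_1a91b9_ntH
  Pool.Agent.Lib.MP_1a91b9_ntH.C
open Pool.Agent.Lib.MP_1a91b9_ntT.S9 (tam)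

/-- Phase 2: `dlc c S`. -/
theorem finprod_tam_dlc (c : F4) (S : Finset Pq) : ∃ t : ℕ, Odd t ∧
    (∏ᶠ v : HeightOneSpectrum (𝓞 K), tam (cv ((dlc c S : 𝓞 K) : K)) v) *
      (if (qd.A S + c).b = 0 then 1 else 4) = 4 ^ (S.card + 1) * t := by
  have h : HV (dlc c S) S ((qd.A S + c).b = 0) := by
    intro v
    rw [val_dlc c v S]
    congr 1
    split_ifs <;> rfl
  obtain ⟨t, ht, h1⟩ := finprod_tam h
  refine ⟨t, ht, ?_⟩
  rw [← h1]
  congr 1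
  split_ifs <;> rfl

end Pool.Agent.Lib.MP_1a91b9_ntH2.C
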