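import Pool.Agent.Lib.MP_1a91b9_ntH.C.SelD
import Pool.Agent.Lib.MP_1a91b9_ntH2.C.HypC

/-!
# MP_1a91b9_nt (TwistDensity), phase 2, part C: the Selmer group for `dlc d S` (C2 of the page)

`sel_class_c`: if the matrix `(tw d qd).M S` is invertible, a triple `a` of elements of `K` whose product
is a square and which satisfies the local conditions of the curve `y² = x³ + (dlc d S)³` is the class of a
point of order two.
-/

set_option autoImplicit false
set_option linter.unusedSectionVars false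
set_option linter.unusedVariables false
set_option linter.unusedSimpArgs false

namespace Pool.Agent.Lib.MP_1a91b9_ntH.C.Sel

open NumberField Finset WithZero IsDedekindDomain Pool.Agent.Lib.MP_1a91b9_ntT
open Pool.Agent.Lib.MP_1a91b9_ntH (wO s3 Pq qd DD dl red half qs sgz)
open Pool.Agent.Lib.MP_1a91b9_ntH2 (dlc tw tw_s tw_a cj_add_of)
open Pool.Agent.Lib.MP_1a91b9_ntH2.C (hypc_good hypc_bad dlc_ne_zero loc_two_c cr_of_cl_zero cl_even)

noncomputable section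

/-- The class of a point of order two of the curve of `dlc d S`. -/
def stc (d : F4) (S : Finset Pq) (c : F4) (i : Fin 3) : 𝓞 K :=
  (dlc d S * s3) ^ (io c i).val * (-1) ^ (io (F4.w * F4.w * c) i).val

theorem stc_ne (d : F4) (S : Finset Pq) (c : F4) (i : Fin 3) : stc d S c i ≠ 0 :=
  mul_ne_zero (pow_ne_zero _ (mul_ne_zero (dlc_ne_zero d S) prime_s3.ne_zero))
    (pow_ne_zero _ (neg_ne_zero.2 one_ne_zero))

theorem dlcK_ne (d : F4) (S : Finset Pq) : ((dlc d S : 𝓞 K) : K) ≠ 0 :=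
  fun h => dlc_ne_zero d S (RingOfIntegers.ext h)

theorem stcK_ne (d : F4) (S : Finset Pq) (c : F4) (i : Fin 3) : ((stc d S c i : 𝓞 K) : K) ≠ 0 :=
  fun h => stc_ne d S c i (RingOfIntegers.ext h)

theorem stc_zero (d : F4) (S : Finset Pq) (i : Fin 3) : stc d S 0 i = 1 := by
  have h1 : io 0 i = 0 := by
    revert i
    decide
  have h2 : io (F4.w * F4.w * 0) i = 0 := by
    revert i
    decide
  unfold stc
  rw [h1, h2, ZMod.val_zero, pow_zero, pow_zero, one_mul]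

theorem dlc_gp (d : F4) (S : Finset Pq) :
    dlc d S = gp S (qd.A S + d).a (qd.A S + d).b (fun _ => 1) := by
  unfold dlc gp DD
  have h0 : ∀ x : ZMod 2, x = 0 ∨ x = 1 := by decide
  have h1 : ((1 : ZMod 2)).val = 1 := rfl
  rcases h0 (qd.A S + d).a with ha | ha <;> rcases h0 (qd.A S + d).b with hb | hb <;>
    simp only [ha, hb, ZMod.val_zero, h1, pow_zero, pow_one, if_true, one_ne_zero, if_false,
      one_mul, mul_one] <;> ring

/-- The equation at `q`. -/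
theorem eq_atc (d : F4) {S : Finset Pq} {q : Pq} (hq : q ∈ S) (n k : ZMod 2) (V : Pq → ZMod 2) (c : F4)
    (i : Fin 3) (h : Sq ((pv q.1 q.prime).valuation K) ((gp S n k V * stc d S c i : 𝓞 K) : K)) :
    V q = io c i ∧ n * F4.tr (qd.a q) + k * F4.tr (F4.w * qd.a q) +
      ∑ p ∈ S.erase q, V p * qd.s p q + io c i * ((qd.A S + d).a * F4.tr (qd.a q) +
        ((qd.A S + d).b + 1) * F4.tr (F4.w * qd.a q) + ∑ p ∈ S.erase q, qd.s p q) +
      io (F4.w * F4.w * c) i * F4.tr (qd.a q) = 0 := by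
  have h4 : (pv q.1 q.prime).valuation K (4 : K) ≤ 1 := (val_four q).le
  obtain ⟨t, ht⟩ : ∃ t : 𝓞 K, t = gp (S.erase q) n k V *
      (gp (S.erase q) (qd.A S + d).a (qd.A S + d).b (fun _ => 1) * s3) ^ (io c i).val *
        (-1) ^ (io (F4.w * F4.w * c) i).val := ⟨_, rfl⟩
  have hnt : ¬ q.1 ∣ t := by
    rw [ht]
    intro hd
    rcases q.prime.dvd_or_dvd hd with h1 | h1
    · rcases q.prime.dvd_or_dvd h1 with h2 | h2
      · exact not_dvd_gp_erase _ _ _ h2
      · rcases q.prime.dvd_or_dvd (q.prime.dvd_of_dvd_pow h2) with h3 | h3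
        · exact not_dvd_gp_erase _ _ _ h3
        · exact not_dvd_s3 q h3
    · exact not_dvd_of_unit q.prime ((isUnit_one.neg).pow _) h1
  have h1 : ((1 : ZMod 2)).val = 1 := rfl
  have hfac : gp S n k V * stc d S c i = q.1 ^ ((V q).val + (io c i).val) * t := by
    rw [ht, gp_erase hq, stc, dlc_gp, gp_erase hq (qd.A S + d).a, h1, pow_one]
    ring
  have hval : (pv q.1 q.prime).valuation K ((gp S n k V * stc d S c i : 𝓞 K) : K) =
      exp (-(((V q).val + (io c i).val : ℕ) : ℤ)) := by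
    rw [hfac]
    push_cast
    rw [map_mul, map_pow, pv_self, pv_one q.prime hnt, mul_one, exp_pow]
    push_cast
    rfl
  have hev := h.even h4
  rw [hval] at hev
  have hev2 := exp_odd hev
  rw [even_neg, Int.even_coe_nat] at hev2
  have hVc := even_val hev2
  refine ⟨hVc, ?_⟩
  have hsq : Sq ((pv q.1 q.prime).valuation K) (t : K) := by
    have hqK : (q.1 : K) ≠ 0 := fun h0 => q.prime.ne_zero (RingOfIntegers.ext h0)
    have h5 := h.mul h4 (Sq.of_isSquare (ν := (pv q.1 q.prime).valuation K)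
      (u := (1 / (q.1 : K) ^ (V q).val) ^ 2) ⟨1 / (q.1 : K) ^ (V q).val, by ring⟩
      (pow_ne_zero 2 (div_ne_zero one_ne_zero (pow_ne_zero _ hqK))))
    have h6 : ((gp S n k V * stc d S c i : 𝓞 K) : K) * (1 / (q.1 : K) ^ (V q).val) ^ 2 = (t : K) := by
      rw [hfac, ← hVc]
      push_cast
      rw [← two_mul, pow_mul']
      field_simp
    rw [h6] at h5
    exact h5
  have hqs := sq_qs q hnt hsq
  have hnq : q ∉ S.erase q := notMem_erase q S
  rw [ht, qs_mul, qs_mul, qs_pow, qs_mul, qs_gp hnq, qs_gp hnq, qs_s3, qs_pow, qs_neg_one,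
    sgz_pow, ← sgz_add, sgz_pow, ← sgz_add, ← sgz_add] at hqs
  have h7 : sgz 0 = 1 := rfl
  rw [← h7] at hqs
  have h8 := sgz_inj hqs
  simp only [one_mul] at h8
  rw [← h8]
  ring

theorem ee_stc (d : F4) (S : Finset Pq) (j i : Fin 3) (hij : i ≠ j) : ∃ r : K, r ≠ 0 ∧
    ee om ((dlc d S : 𝓞 K) : K) j - ee om ((dlc d S : 𝓞 K) : K) i =
      ((stc d S (F4.w ^ (j : ℕ)) i : 𝓞 K) : K) * r ^ 2 := by
  have hom : om ≠ 0 := om_spec.ne_zero (by norm_num)
  have h1 : ((1 : ZMod 2)).val = 1 := rfl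
  have h0 : ((0 : ZMod 2)).val = 0 := rfl
  obtain ⟨D, hD⟩ : ∃ D : K, D = ((dlc d S : 𝓞 K) : K) := ⟨_, rfl⟩
  have k : ∀ (c : F4) (i : Fin 3) (x y : ZMod 2), io c i = x → io (F4.w * F4.w * c) i = y →
      ((stc d S c i : 𝓞 K) : K) = (D * (1 + 2 * om)) ^ x.val * (-1) ^ y.val := by
    intro c i x y hx hy
    unfold stc
    rw [hx, hy, hD, ← coe_s3]
    push_cast
    rfl
  rw [← hD]
  unfold ee
  fin_cases j <;> fin_cases i
  · exact absurd rfl hij
  · refine ⟨om, hom, ?_⟩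
    show -(om ^ 0 * D) - -(om ^ 1 * D) = ((stc d S (F4.w ^ 0) 1 : 𝓞 K) : K) * (om) ^ 2
    rw [k _ _ 1 1 (by decide) (by decide)]
    simp only [h1, h0, pow_one, pow_zero]
    linear_combination (D * (2 * om - 1)) * om_quad
  · refine ⟨om ^ 2, pow_ne_zero 2 hom, ?_⟩
    show -(om ^ 0 * D) - -(om ^ 2 * D) = ((stc d S (F4.w ^ 0) 2 : 𝓞 K) : K) * (om ^ 2) ^ 2
    rw [k _ _ 1 0 (by decide) (by decide)]
    simp only [h1, h0, pow_one, pow_zero]
    linear_combination (D * (-2 * om ^ 3 + om ^ 2 + om - 1)) * om_quad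
  · refine ⟨om, hom, ?_⟩
    show -(om ^ 1 * D) - -(om ^ 0 * D) = ((stc d S (F4.w ^ 1) 0 : 𝓞 K) : K) * (om) ^ 2
    rw [k _ _ 1 0 (by decide) (by decide)]
    simp only [h1, h0, pow_one, pow_zero]
    linear_combination (D * (1 - 2 * om)) * om_quad
  · exact absurd rfl hij
  · refine ⟨1, one_ne_zero, ?_⟩
    show -(om ^ 1 * D) - -(om ^ 2 * D) = ((stc d S (F4.w ^ 1) 2 : 𝓞 K) : K) * (1) ^ 2
    rw [k _ _ 1 1 (by decide) (by decide)]
    simp only [h1, h0, pow_one, pow_zero]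
    linear_combination (D) * om_quad
  · refine ⟨om ^ 2, pow_ne_zero 2 hom, ?_⟩
    show -(om ^ 2 * D) - -(om ^ 0 * D) = ((stc d S (F4.w ^ 2) 0 : 𝓞 K) : K) * (om ^ 2) ^ 2
    rw [k _ _ 1 1 (by decide) (by decide)]
    simp only [h1, h0, pow_one, pow_zero]
    linear_combination (D * (2 * om ^ 3 - om ^ 2 - om + 1)) * om_quad
  · refine ⟨1, one_ne_zero, ?_⟩
    show -(om ^ 2 * D) - -(om ^ 1 * D) = ((stc d S (F4.w ^ 2) 1 : 𝓞 K) : K) * (1) ^ 2
    rw [k _ _ 1 0 (by decide) (by decide)]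
    simp only [h1, h0, pow_one, pow_zero]
    linear_combination (-D) * om_quad
  · exact absurd rfl hij


theorem stc_prod (d : F4) (S : Finset Pq) (c : F4) : IsSquare (stc d S c 0 * stc d S c 1 * stc d S c 2) := by
  have h1 := pow_three_sq (dlc d S * s3) c.a c.b
  have h2 := pow_three_sq (-1 : 𝓞 K) (F4.w * F4.w * c).a (F4.w * F4.w * c).b
  have e : stc d S c 0 * stc d S c 1 * stc d S c 2 =
      ((dlc d S * s3) ^ c.b.val * (dlc d S * s3) ^ c.a.val * (dlc d S * s3) ^ (c.a + c.b).val) *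
      ((-1) ^ (F4.w * F4.w * c).b.val * (-1) ^ (F4.w * F4.w * c).a.val *
        (-1) ^ ((F4.w * F4.w * c).a + (F4.w * F4.w * c).b).val) := by
    show ((dlc d S * s3) ^ c.b.val * (-1) ^ (F4.w * F4.w * c).b.val) *
      ((dlc d S * s3) ^ c.a.val * (-1) ^ (F4.w * F4.w * c).a.val) *
      ((dlc d S * s3) ^ (c.a + c.b).val * (-1) ^ ((F4.w * F4.w * c).a + (F4.w * F4.w * c).b).val) = _
    ring
  rw [e]
  exact h1.mul h2

/-- The local condition at a prime of `S`. -/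
theorem bad_stc (d : F4) (S : Finset Pq) {q : Pq} (hq : q ∈ S) (a : Fin 3 → K) (ha : ∀ i, a i ≠ 0)
    (hp : IsSquare (a 0 * a 1 * a 2))
    (h : GLoc ((pv q.1 q.prime).valuation K) om ((dlc d S : 𝓞 K) : K) a) :
    ∃ c : F4, ∀ i, Sq ((pv q.1 q.prime).valuation K) (a i * ((stc d S c i : 𝓞 K) : K)) := by
  have hqv : q.1 ∈ (pv q.1 q.prime).asIdeal := Ideal.mem_span_singleton_self _
  obtain ⟨h4, hee⟩ := hypc_bad d S (pv q.1 q.prime) q hq hqv
  rcases loc_bad ((pv q.1 q.prime).valuation K) om_quad (dlcK_ne d S) h4 (-1) hee a ha hp h with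
    h1 | ⟨j, h1⟩
  · refine ⟨0, fun i => ?_⟩
    have e : ((stc d S 0 i : 𝓞 K) : K) = 1 := by
      rw [stc_zero]
      rfl
    rw [e, mul_one]
    exact h1 i
  · have key : ∀ i, i ≠ j → Sq ((pv q.1 q.prime).valuation K)
        (a i * ((stc d S (F4.w ^ (j : ℕ)) i : 𝓞 K) : K)) := by
      intro i hij
      obtain ⟨r, hr, he⟩ := ee_stc d S j i hij
      have h2 := h1 i hij
      rw [he, ← mul_assoc] at h2
      exact Sq.of_mul_sq hr h2
    refine ⟨F4.w ^ (j : ℕ), fun i => ?_⟩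
    by_cases hij : i = j
    · subst hij
      obtain ⟨f, hf⟩ : ∃ f : Fin 3 → K, ∀ l, f l = a l * ((stc d S (F4.w ^ (i : ℕ)) l : 𝓞 K) : K) :=
        ⟨_, fun _ => rfl⟩
      obtain ⟨k, l, hk, hl, -, -, hprod⟩ := prod_split f i
      have hfsq : IsSquare (f 0 * f 1 * f 2) := by
        obtain ⟨r, hr⟩ := hp
        obtain ⟨s, hs⟩ := stc_prod d S (F4.w ^ (i : ℕ))
        refine ⟨r * (s : K), ?_⟩
        have hs' : ((stc d S (F4.w ^ (i : ℕ)) 0 : 𝓞 K) : K) * ((stc d S (F4.w ^ (i : ℕ)) 1 : 𝓞 K) : K) *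
            ((stc d S (F4.w ^ (i : ℕ)) 2 : 𝓞 K) : K) = (s : K) * (s : K) := by
          have := congrArg (fun x : 𝓞 K => (x : K)) hs
          push_cast at this
          exact this
        rw [hf, hf, hf]
        linear_combination ((stc d S (F4.w ^ (i : ℕ)) 0 : 𝓞 K) : K) *
          ((stc d S (F4.w ^ (i : ℕ)) 1 : 𝓞 K) : K) * ((stc d S (F4.w ^ (i : ℕ)) 2 : 𝓞 K) : K) * hr +
          r * r * hs'
      have hf0 : ∀ l, f l ≠ 0 := fun l => by
        rw [hf]
        exact mul_ne_zero (ha l) (stcK_ne _ _ _ _)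
      have h3 : Sq ((pv q.1 q.prime).valuation K) (f i * (f k * f l)) := by
        rw [← hprod]
        exact Sq.of_isSquare hfsq (mul_ne_zero (mul_ne_zero (hf0 0) (hf0 1)) (hf0 2))
      have h5 : Sq ((pv q.1 q.prime).valuation K) (f k * f l) :=
        Sq.mul h4.le (by rw [hf]; exact key k hk) (by rw [hf]; exact key l hl)
      have h6 := Sq.cancel h4.le h3 h5
      rw [hf] at h6
      exact h6
    · exact key i hij


/-! ### the place above `2` -/

theorem two_mem : (2 : 𝓞 K) ∈ (pv 2 prime_two).asIdeal := Ideal.mem_span_singleton_self _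

theorem cl_stc (d : F4) (S : Finset Pq) (c : F4) (i : Fin 3) :
    Cl (stc d S c i) (F4.of (io c i) * (d + F4.w) + F4.of (io (F4.w * F4.w * c) i) * 1) :=
  ((Cl.mul (Pool.Agent.Lib.MP_1a91b9_ntH2.C.Cr.dlc d S) Cl.s3).pow _).mul (Cl.neg_one.pow _)

theorem pv_two_cl {x : 𝓞 K} {t : F4} (h : Cl x t) : (pv 2 prime_two).valuation K (x : K) = 1 := by
  apply pv_one
  intro h1
  obtain ⟨y, rfl, -⟩ := h
  have h2 : (2 : 𝓞 K) ∣ 1 := by
    have h3 := dvd_sub h1 (dvd_mul_right 2 y)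
    rwa [add_sub_cancel_right] at h3
  exact prime_two.not_isUnit (isUnit_of_dvd_one h2)

/-- The local condition at `2`. -/
theorem two_c {d : F4} (hd : d ≠ 0) (S : Finset Pq) (a : Fin 3 → K) (ha : ∀ i, a i ≠ 0)
    (hp : IsSquare (a 0 * a 1 * a 2))
    (h : GLoc ((pv 2 prime_two).valuation K) om ((dlc d S : 𝓞 K) : K) a) :
    ∃ τ : F4, ∀ i, C.Cl ((pv 2 prime_two).valuation K) (a i * ((stc d S τ i : 𝓞 K) : K)) 0 := by
  rcases loc_two_c hd S _ two_mem a h with h1 | ⟨j, h1⟩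
  · refine ⟨0, fun i => ?_⟩
    have e : ((stc d S 0 i : 𝓞 K) : K) = 1 := by
      rw [stc_zero]
      rfl
    rw [e, mul_one]
    exact h1 i
  · refine ⟨F4.w ^ (j : ℕ), fun i => ?_⟩
    obtain ⟨f, hf⟩ : ∃ f : Fin 3 → K, ∀ l, f l = a l * ((stc d S (F4.w ^ (j : ℕ)) l : 𝓞 K) : K) :=
      ⟨_, fun _ => rfl⟩
    have hf0 : ∀ l, f l ≠ 0 := fun l => by
      rw [hf]
      exact mul_ne_zero (ha l) (stcK_ne _ _ _ _)
    have hfsq : IsSquare (f 0 * f 1 * f 2) := by
      obtain ⟨r, hr⟩ := hp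
      obtain ⟨s, hs⟩ := stc_prod d S (F4.w ^ (j : ℕ))
      refine ⟨r * (s : K), ?_⟩
      have hs' : ((stc d S (F4.w ^ (j : ℕ)) 0 : 𝓞 K) : K) * ((stc d S (F4.w ^ (j : ℕ)) 1 : 𝓞 K) : K) *
          ((stc d S (F4.w ^ (j : ℕ)) 2 : 𝓞 K) : K) = (s : K) * (s : K) := by
        have := congrArg (fun x : 𝓞 K => (x : K)) hs
        push_cast at this
        exact this
      rw [hf, hf, hf]
      linear_combination ((stc d S (F4.w ^ (j : ℕ)) 0 : 𝓞 K) : K) *
        ((stc d S (F4.w ^ (j : ℕ)) 1 : 𝓞 K) : K) * ((stc d S (F4.w ^ (j : ℕ)) 2 : 𝓞 K) : K) * hr +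
        r * r * hs'
    have h3 := cl_third val_two om_quad f hf0 hfsq (c := 0) (by rw [map_zero]; exact zero_le) j
      (fun l hl => by
        rw [mul_zero, hf]
        obtain ⟨r, hr, he⟩ := ee_stc d S j l hl
        have h2 := h1 l hl
        rw [he, ← mul_assoc] at h2
        exact Pool.Agent.Lib.MP_1a91b9_ntH.C.Cl.of_mul_sq hr h2) i
    rw [mul_zero, hf] at h3
    exact h3

theorem even_outc {d : F4} (hd : d ≠ 0) (S : Finset Pq) (a : Fin 3 → K) (ha : ∀ i, a i ≠ 0)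
    (hp : IsSquare (a 0 * a 1 * a 2))
    (hloc : ∀ v : HeightOneSpectrum (𝓞 K), GLoc (v.valuation K) om ((dlc d S : 𝓞 K) : K) a)
    (i : Fin 3) (π : 𝓞 K) (hπ : Prime π) (h3 : ¬ π ∣ s3) (hS : ∀ q ∈ S, ¬ π ∣ q.1) :
    IsSquare ((pv π hπ).valuation K (a i)) := by
  by_cases h2 : π ∣ 2
  · rw [pv_eq hπ prime_two h2]
    obtain ⟨τ, hτ⟩ := two_c hd S a ha hp (hloc _)
    have h4 := cl_even val_two (hτ i)
    rw [map_mul, pv_two_cl (cl_stc d S τ i), mul_one] at h4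
    exact h4
  · obtain ⟨h4, hγ⟩ := hypc_good d S (pv π hπ) (fun h => h2 (Ideal.mem_span_singleton.1 h))
      (fun h => h3 (Ideal.mem_span_singleton.1 h))
      (fun q hq h => hS q hq (Ideal.mem_span_singleton.1 h))
    exact loc_even ((pv π hπ).valuation K) om_quad (dlcK_ne d S) h4 0 hγ a ha hp (hloc _) i

theorem eq_two (d : F4) (S : Finset Pq) (n k : ZMod 2) (V : Pq → ZMod 2) (τ : F4) (i : Fin 3)
    (a m : K) (hm : m ≠ 0) (ha : a = m ^ 2 * (gp S n k V : K))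
    (h : C.Cl ((pv 2 prime_two).valuation K) (a * ((stc d S τ i : 𝓞 K) : K)) 0) :
    F4.of n * 1 + F4.of k * F4.w + ∑ q ∈ S, F4.of (V q) * qd.a q +
      (F4.of (io τ i) * (d + F4.w) + F4.of (io (F4.w * F4.w * τ) i) * 1) = 0 := by
  have e : a * ((stc d S τ i : 𝓞 K) : K) = ((gp S n k V * stc d S τ i : 𝓞 K) : K) * m ^ 2 := by
    rw [ha]
    have e1 : ((gp S n k V * stc d S τ i : 𝓞 K) : K) =
        ((gp S n k V : 𝓞 K) : K) * ((stc d S τ i : 𝓞 K) : K) := by
      push_cast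
      rfl
    rw [e1]
    ring
  rw [e] at h
  exact cr_of_cl_zero two_mem ((Cl.gp S n k V).mul (cl_stc d S τ i))
    (Pool.Agent.Lib.MP_1a91b9_ntH.C.Cl.of_mul_sq hm h)

/-! ### linear algebra -/

theorem io_add (x y : F4) (i : Fin 3) : io (x + y) i = io x i + io y i := by
  revert x y i
  decide

theorem tr_mul_eq (x y : F4) : x.a * F4.tr y + x.b * F4.tr (F4.w * y) = F4.tr (x * y) := by
  revert x y
  decide

theorem two_z : (2 : ZMod 2) = 0 := rfl

theorem lin_two (S : Finset Pq) (d τ : F4) (W : Pq → F4) (n k : ZMod 2) (i : Fin 3)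
    (h : F4.of n * 1 + F4.of k * F4.w + ∑ q ∈ S, F4.of (io (W q + τ) i) * qd.a q +
      (F4.of (io τ i) * (d + F4.w) + F4.of (io (F4.w * F4.w * τ) i) * 1) = 0) :
    n = (qd.A S + d).a * io τ i + io (F4.w * F4.w * τ) i + ∑ q ∈ S, io (W q) i * (qd.a q).a ∧
    k = ((qd.A S + d).b + 1) * io τ i + ∑ q ∈ S, io (W q) i * (qd.a q).b := by
  have hA : (qd.A S).a = ∑ q ∈ S, (qd.a q).a := sum_a _
  have hB : (qd.A S).b = ∑ q ∈ S, (qd.a q).b := sum_b _
  have h1 := congrArg F4.a h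
  have h2 := congrArg F4.b h
  simp only [add_a, of_mul_a, sum_a] at h1
  simp only [add_b, of_mul_b, sum_b] at h2
  have e1 : (1 : F4).a = 1 := rfl
  have e2 : (1 : F4).b = 0 := rfl
  have e3 : F4.w.a = 0 := rfl
  have e4 : F4.w.b = 1 := rfl
  have e5 : (0 : F4).a = 0 := rfl
  have e6 : (0 : F4).b = 0 := rfl
  rw [e1, e3, e5] at h1
  rw [e2, e4, e6] at h2
  have f1 : ∑ q ∈ S, io (W q + τ) i * (qd.a q).a =
      ∑ q ∈ S, io (W q) i * (qd.a q).a + io τ i * (qd.A S).a := by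
    rw [hA, mul_sum, ← sum_add_distrib]
    exact sum_congr rfl fun q _ => by rw [io_add]; ring
  have f2 : ∑ q ∈ S, io (W q + τ) i * (qd.a q).b =
      ∑ q ∈ S, io (W q) i * (qd.a q).b + io τ i * (qd.A S).b := by
    rw [hB, mul_sum, ← sum_add_distrib]
    exact sum_congr rfl fun q _ => by rw [io_add]; ring
  rw [f1] at h1
  rw [f2] at h2
  rw [add_a, add_b]
  constructor
  · linear_combination h1 - (((qd.A S).a + d.a) * io τ i + io (F4.w * F4.w * τ) i +
      ∑ q ∈ S, io (W q) i * (qd.a q).a) * two_z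
  · linear_combination h2 - (((qd.A S).b + d.b + 1) * io τ i +
      ∑ q ∈ S, io (W q) i * (qd.a q).b) * two_z

theorem id_c (A a d : F4) : F4.tr (d * a) = F4.tr (a * a) + (A + d).a * F4.tr a +
    (A + d).b * F4.tr (F4.w * a) + F4.tr ((A + a) * a) := by
  revert A a d
  decide

theorem row_c (S : Finset Pq) {q : Pq} (hq : q ∈ S) (d τ : F4) (W : Pq → F4) (n k : ZMod 2)
    (i : Fin 3)
    (hn : n = (qd.A S + d).a * io τ i + io (F4.w * F4.w * τ) i + ∑ q ∈ S, io (W q) i * (qd.a q).a)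
    (hk : k = ((qd.A S + d).b + 1) * io τ i + ∑ q ∈ S, io (W q) i * (qd.a q).b)
    (h : n * F4.tr (qd.a q) + k * F4.tr (F4.w * qd.a q) +
      ∑ p ∈ S.erase q, io (W p + τ) i * qd.s p q + io (W q + τ) i *
        ((qd.A S + d).a * F4.tr (qd.a q) + ((qd.A S + d).b + 1) * F4.tr (F4.w * qd.a q) +
          ∑ p ∈ S.erase q, qd.s p q) +
      io (F4.w * F4.w * (W q + τ)) i * F4.tr (qd.a q) = 0) :
    ∑ p ∈ S.erase q, io (W p) i * qd.s q p + io (W q) i * (F4.tr (d * qd.a q) +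
      F4.tr (F4.w * qd.a q) + ∑ p ∈ S.erase q, qd.s q p) +
      io (F4.w * F4.w * W q) i * F4.tr (qd.a q) = 0 := by
  have f1 : ∑ p ∈ S.erase q, io (W p + τ) i * qd.s p q =
      ∑ p ∈ S.erase q, io (W p) i * qd.s q p +
      ∑ p ∈ S.erase q, io (W p) i * F4.tr (qd.a p * qd.a q) +
        io τ i * ∑ p ∈ S.erase q, qd.s p q := by
    rw [mul_sum, ← sum_add_distrib, ← sum_add_distrib]
    refine sum_congr rfl fun p hp => ?_
    rw [io_add]
    have h1 := qd_rec p q (ne_of_mem_erase hp)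
    linear_combination (io (W p) i) * h1 - io (W p) i * qd.s q p * two_z
  have f2 : (∑ q ∈ S, io (W q) i * (qd.a q).a) * F4.tr (qd.a q) +
      (∑ q ∈ S, io (W q) i * (qd.a q).b) * F4.tr (F4.w * qd.a q) =
      io (W q) i * F4.tr (qd.a q * qd.a q) +
        ∑ p ∈ S.erase q, io (W p) i * F4.tr (qd.a p * qd.a q) := by
    rw [add_comm (io (W q) i * F4.tr (qd.a q * qd.a q)),
      sum_erase_add _ (fun p => io (W p) i * F4.tr (qd.a p * qd.a q)) hq, sum_mul, sum_mul,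
      ← sum_add_distrib]
    exact sum_congr rfl fun p _ => by rw [← tr_mul_eq (qd.a p) (qd.a q)]; ring
  rw [f1, sum_rec S hq, io_add, mul_add (F4.w * F4.w), io_add, hn, hk] at h
  rw [id_c (qd.A S)]
  obtain ⟨σ, hσ⟩ : ∃ σ : ZMod 2, σ = ∑ p ∈ S.erase q, qd.s q p := ⟨_, rfl⟩
  obtain ⟨Z, hZ⟩ : ∃ Z : ZMod 2, Z = ∑ p ∈ S.erase q, io (W p) i * qd.s q p := ⟨_, rfl⟩
  obtain ⟨Y, hY⟩ : ∃ Y : ZMod 2, Y = ∑ p ∈ S.erase q, io (W p) i * F4.tr (qd.a p * qd.a q) :=
    ⟨_, rfl⟩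
  obtain ⟨S1, hS1⟩ : ∃ Y : ZMod 2, Y = ∑ q ∈ S, io (W q) i * (qd.a q).a := ⟨_, rfl⟩
  obtain ⟨S2, hS2⟩ : ∃ Y : ZMod 2, Y = ∑ q ∈ S, io (W q) i * (qd.a q).b := ⟨_, rfl⟩
  rw [← hσ, ← hZ, ← hY, ← hS1, ← hS2] at h
  rw [← hS1, ← hS2, ← hY] at f2
  rw [← hσ, ← hZ]
  generalize (qd.A S + d).a = X at h ⊢
  generalize (qd.A S + d).b = X' at h ⊢
  generalize F4.tr ((qd.A S + qd.a q) * qd.a q) = T at h ⊢
  generalize F4.tr (F4.w * qd.a q) = β at h f2 ⊢
  generalize F4.tr (qd.a q * qd.a q) = γ at h f2 ⊢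
  generalize F4.tr (qd.a q) = α at h f2 ⊢
  generalize io (W q) i = w at h f2 ⊢
  generalize io τ i = t at h ⊢
  generalize io (F4.w * F4.w * τ) i = t'' at h ⊢
  generalize io (F4.w * F4.w * W q) i = w'' at h ⊢
  linear_combination h - f2 - (X * t * α + t'' * α + (X' + 1) * t * β + Y + t * (σ + T)) * two_z

theorem mul_ca (s t : ZMod 2) (a x : F4) : ((F4.of s + a + F4.of t) * x).a =
    x.a * (t + F4.tr (F4.w * a) + s) + (F4.w * F4.w * x).a * F4.tr a := by
  revert s t a x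
  decide

theorem mul_cb (s t : ZMod 2) (a x : F4) : ((F4.of s + a + F4.of t) * x).b =
    x.b * (t + F4.tr (F4.w * a) + s) + (F4.w * F4.w * x).b * F4.tr a := by
  revert s t a x
  decide

theorem ker_c (S : Finset Pq) (d : F4) (W : Pq → F4)
    (h : ∀ q ∈ S, ∀ i, ∑ p ∈ S.erase q, io (W p) i * qd.s q p + io (W q) i * (F4.tr (d * qd.a q) +
      F4.tr (F4.w * qd.a q) + ∑ p ∈ S.erase q, qd.s q p) +
      io (F4.w * F4.w * W q) i * F4.tr (qd.a q) = 0)
    (hM : ∀ v : S → F4, ((tw d qd).M S).mulVec v = 0 → v = 0) : ∀ q ∈ S, W q = 0 := by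
  have h0 := hM (fun i : S => F4.cj (W i)) (by
    funext q
    have e1 := (tw d qd).M_mulVec S (fun i => F4.cj (W i)) q
    rw [e1, tw_a, cj_add_of]
    simp only [tw_s]
    obtain ⟨σ, hσ⟩ : ∃ σ : ZMod 2, σ = ∑ p ∈ S.erase (q : Pq), qd.s q p := ⟨_, rfl⟩
    have e2 : ∑ p ∈ S.erase (q : Pq), F4.of (qd.s q p) * W p +
        (F4.of σ + qd.a q + F4.of (F4.tr (d * qd.a q))) * W q = 0 := by
      have g1 := h q q.2 1
      have g0 := h q q.2 0
      rw [← hσ] at g1 g0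
      have i0 : ∀ x : F4, io x 0 = x.b := fun x => rfl
      have i1 : ∀ x : F4, io x 1 = x.a := fun x => rfl
      simp only [i0] at g0
      simp only [i1] at g1
      apply F4.ext
      · rw [add_a, sum_a, mul_ca]
        have e3 : ∑ p ∈ S.erase (q : Pq), (F4.of (qd.s q p) * W p).a =
            ∑ p ∈ S.erase (q : Pq), (W p).a * qd.s q p :=
          sum_congr rfl fun p _ => by rw [of_mul_a, mul_comm]
        rw [e3]
        have e4 : (0 : F4).a = 0 := rfl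
        rw [e4]
        linear_combination g1
      · rw [add_b, sum_b, mul_cb]
        have e3 : ∑ p ∈ S.erase (q : Pq), (F4.of (qd.s q p) * W p).b =
            ∑ p ∈ S.erase (q : Pq), (W p).b * qd.s q p :=
          sum_congr rfl fun p _ => by rw [of_mul_b, mul_comm]
        rw [e3]
        have e4 : (0 : F4).b = 0 := rfl
        rw [e4]
        linear_combination g0
    have e3 := congrArg F4.cj e2
    simp only [F4.cj_add, F4.cj_mul, F4.cj_sum, F4.cj_of, F4.cj_zero] at e3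
    rw [← of_sum, ← hσ]
    show _ = (0 : F4)
    linear_combination e3)
  intro q hq
  have h1 : F4.cj (W q) = 0 := congrFun h0 ⟨q, hq⟩
  rw [← F4.cj_cj (W q), h1, F4.cj_zero]

theorem gpc_sq (S : Finset Pq) (x τ : F4) (i : Fin 3) :
    IsSquare (gp S (x.a * io τ i + io (F4.w * F4.w * τ) i) ((x.b + 1) * io τ i) (fun _ => io τ i) *
      ((gp S x.a x.b (fun _ => 1) * s3) ^ (io τ i).val *
        (-1) ^ (io (F4.w * F4.w * τ) i).val)) := by
  generalize x.a = A0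
  generalize x.b = B0
  generalize io (F4.w * F4.w * τ) i = f
  generalize io τ i = e
  have h0 : ∀ x : ZMod 2, x = 0 ∨ x = 1 := by decide
  have h1 : ((1 : ZMod 2)).val = 1 := rfl
  unfold gp
  rcases h0 e with rfl | rfl
  · refine ⟨(-1) ^ f.val, ?_⟩
    simp only [mul_zero, zero_add, ZMod.val_zero, pow_zero, mul_one, one_mul, prod_const_one]
  · simp only [mul_one, h1, pow_one]
    have hn := pow_sq2 (-1 : 𝓞 K) A0 f
    have hk := pow_sq2 (s3 : 𝓞 K) B0 1
    have hS : IsSquare ((∏ q ∈ S, q.1) * ∏ q ∈ S, q.1) := ⟨_, rfl⟩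
    have e : (-1) ^ (A0 + f).val * s3 ^ (B0 + 1).val * (∏ q ∈ S, q.1) *
        ((-1) ^ A0.val * s3 ^ B0.val * (∏ q ∈ S, q.1) * s3 * (-1) ^ f.val) =
        ((-1) ^ (A0 + f).val * ((-1) ^ A0.val * (-1) ^ f.val)) *
        (s3 ^ (B0 + 1).val * (s3 ^ B0.val * s3 ^ (1 : ZMod 2).val)) *
        ((∏ q ∈ S, q.1) * ∏ q ∈ S, q.1) := by
      rw [h1, pow_one]
      ring
    rw [e]
    exact (hn.mul hk).mul hS

/-- **The Selmer group**, `d ≠ 0`: a locally soluble class is the class of a point of order two. -/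
theorem sel_class_ne {d : F4} (hd : d ≠ 0) (S : Finset Pq) (hM : ((tw d qd).M S).det ≠ 0)
    (a : Fin 3 → K) (ha : ∀ i, a i ≠ 0) (hp : IsSquare (a 0 * a 1 * a 2))
    (hloc : ∀ v : HeightOneSpectrum (𝓞 K), GLoc (v.valuation K) om ((dlc d S : 𝓞 K) : K) a) :
    (∀ i, IsSquare (a i)) ∨
      ∃ j, ∀ i, i ≠ j →
        IsSquare (a i * (ee om ((dlc d S : 𝓞 K) : K) j - ee om ((dlc d S : 𝓞 K) : K) i)) := by
  classical
  have hdec : ∀ i, ∃ (n k : ZMod 2) (V : Pq → ZMod 2) (m : K), m ≠ 0 ∧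
      a i = m ^ 2 * (gp S n k V : K) := fun i =>
    decomp S (a i) (ha i) fun π hπ h3 hS => even_outc hd S a ha hp hloc i π hπ h3 hS
  choose n k V m hm ham using hdec
  -- the primes of `S`
  have hq : ∀ q ∈ S, ∃ c : F4, ∀ i, V i q = io c i ∧
      n i * F4.tr (qd.a q) + k i * F4.tr (F4.w * qd.a q) +
        ∑ p ∈ S.erase q, V i p * qd.s p q + io c i * ((qd.A S + d).a * F4.tr (qd.a q) +
        ((qd.A S + d).b + 1) * F4.tr (F4.w * qd.a q) + ∑ p ∈ S.erase q, qd.s p q) +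
      io (F4.w * F4.w * c) i * F4.tr (qd.a q) = 0 := by
    intro q hq
    obtain ⟨c, hc⟩ := bad_stc d S hq a ha hp (hloc _)
    refine ⟨c, fun i => eq_atc d hq (n i) (k i) (V i) c i ?_⟩
    have h1 := hc i
    have e : a i * ((stc d S c i : 𝓞 K) : K) =
        ((gp S (n i) (k i) (V i) * stc d S c i : 𝓞 K) : K) * m i ^ 2 := by
      rw [ham i]
      have e1 : ((gp S (n i) (k i) (V i) * stc d S c i : 𝓞 K) : K) =
          ((gp S (n i) (k i) (V i) : 𝓞 K) : K) * ((stc d S c i : 𝓞 K) : K) := by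
        push_cast
        rfl
      rw [e1]
      ring
    rw [e] at h1
    exact Sq.of_mul_sq (hm i) h1
  choose! Vf hVf using hq
  -- the place above `2`
  obtain ⟨τ, hτ⟩ := two_c hd S a ha hp (hloc _)
  obtain ⟨W, hW⟩ : ∃ W : Pq → F4, ∀ p, Vf p = W p + τ :=
    ⟨fun p => Vf p + τ, fun p => by rw [add_assoc, F4.add_self, add_zero]⟩
  have hVW : ∀ p ∈ S, ∀ i, V i p = io (W p + τ) i := fun p hp i => by
    rw [(hVf p hp i).1, hW]
  have h2 : ∀ i, n i = (qd.A S + d).a * io τ i + io (F4.w * F4.w * τ) i +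
      ∑ q ∈ S, io (W q) i * (qd.a q).a ∧
      k i = ((qd.A S + d).b + 1) * io τ i + ∑ q ∈ S, io (W q) i * (qd.a q).b := by
    intro i
    refine lin_two S d τ W (n i) (k i) i ?_
    have h3 := eq_two d S (n i) (k i) (V i) τ i (a i) (m i) (hm i) (ham i) (hτ i)
    have e : ∑ q ∈ S, F4.of (V i q) * qd.a q = ∑ q ∈ S, F4.of (io (W q + τ) i) * qd.a q :=
      sum_congr rfl fun q hq => by rw [hVW q hq i]
    rw [e] at h3
    exact h3
  have hW0 := ker_c S d W (fun q hq i => by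
    refine row_c S hq d τ W (n i) (k i) i (h2 i).1 (h2 i).2 ?_
    have h3 := (hVf q hq i).2
    have e : ∑ p ∈ S.erase q, V i p * qd.s p q = ∑ p ∈ S.erase q, io (W p + τ) i * qd.s p q :=
      sum_congr rfl fun p hp => by rw [hVW p (mem_of_mem_erase hp) i]
    rw [e, hW q] at h3
    exact h3) fun v hv => Matrix.eq_zero_of_mulVec_eq_zero hM hv
  have hio : ∀ i, io 0 i = 0 := by decide
  have hsq : ∀ i, IsSquare (a i * ((stc d S τ i : 𝓞 K) : K)) := by
    intro i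
    obtain ⟨r, hr⟩ := gpc_sq S (qd.A S + d) τ i
    have z1 : ∑ q ∈ S, io (W q) i * (qd.a q).a = 0 :=
      sum_eq_zero fun q hq => by rw [hW0 q hq, hio, zero_mul]
    have z2 : ∑ q ∈ S, io (W q) i * (qd.a q).b = 0 :=
      sum_eq_zero fun q hq => by rw [hW0 q hq, hio, zero_mul]
    have hn := (h2 i).1
    have hk := (h2 i).2
    rw [z1, add_zero] at hn
    rw [z2, add_zero] at hk
    have e : gp S (n i) (k i) (V i) = gp S ((qd.A S + d).a * io τ i + io (F4.w * F4.w * τ) i)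
        (((qd.A S + d).b + 1) * io τ i) (fun _ => io τ i) := by
      rw [hn, hk]
      unfold gp
      congr 1
      exact prod_congr rfl fun q hq => by rw [hVW q hq i, hW0 q hq, zero_add]
    rw [← e, ← dlc_gp] at hr
    refine ⟨m i * (r : K), ?_⟩
    have e1 : ((gp S (n i) (k i) (V i) : 𝓞 K) : K) * ((stc d S τ i : 𝓞 K) : K) =
        (r : K) * (r : K) := by
      have := congrArg (fun x : 𝓞 K => (x : K)) hr
      push_cast at this
      unfold stc
      push_cast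
      exact this
    rw [ham i]
    linear_combination m i ^ 2 * e1
  by_cases hc0 : τ = 0
  · left
    intro i
    have h1 := hsq i
    rw [hc0, stc_zero] at h1
    have e : ((1 : 𝓞 K) : K) = 1 := rfl
    rw [e, mul_one] at h1
    exact h1
  · right
    obtain ⟨j, rfl⟩ := exists_pow τ hc0
    refine ⟨j, fun i hij => ?_⟩
    obtain ⟨r, hr, he⟩ := ee_stc d S j i hij
    rw [he, ← mul_assoc]
    exact (hsq i).mul ⟨r, by ring⟩

end

end Pool.Agent.Lib.MP_1a91b9_ntH.C.Sel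

namespace Pool.Agent.Lib.MP_1a91b9_ntH2.C

open NumberField Finset WithZero IsDedekindDomain Pool.Agent.Lib.MP_1a91b9_ntT
open Pool.Agent.Lib.MP_1a91b9_ntH (F4 Pq qd)
open Pool.Agent.Lib.MP_1a91b9_ntH.C (GLoc ee)

/-- **The Selmer group** for every class `c`: if the matrix `(tw c qd).M S` is invertible, a triple
whose product is a square and which satisfies the local conditions of the curve
`y² = x³ + (dlc c S)³` is the class of a point of order two. -/
theorem sel_class_c (c : F4) (S : Finset Pq) (hM : ((tw c qd).M S).det ≠ 0)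
    (a : Fin 3 → K) (ha : ∀ i, a i ≠ 0) (hp : IsSquare (a 0 * a 1 * a 2))
    (hloc : ∀ v : HeightOneSpectrum (𝓞 K), GLoc (v.valuation K) om ((dlc c S : 𝓞 K) : K) a) :
    (∀ i, IsSquare (a i)) ∨
      ∃ j, ∀ i, i ≠ j →
        IsSquare (a i * (ee om ((dlc c S : 𝓞 K) : K) j - ee om ((dlc c S : 𝓞 K) : K) i)) := by
  by_cases hc : c = 0
  · subst hc
    rw [tw_zero] at hM
    rw [dlc_zero] at hloc ⊢
    exact Pool.Agent.Lib.MP_1a91b9_ntH.C.Sel.sel_class S hM a ha hp hloc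
  · exact Pool.Agent.Lib.MP_1a91b9_ntH.C.Sel.sel_class_ne hc S hM a ha hp hloc

end Pool.Agent.Lib.MP_1a91b9_ntH2.C
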