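import Pool.Agent.Lib.MP_1a91b9_ntH.C.Coc
import Pool.Agent.Lib.MP_1a91b9_ntH.C.Fin
import Pool.Agent.Lib.MP_1a91b9_ntH2.C.SelP

/-!
# MP_1a91b9_nt (TwistDensity), phase 2, part C: the points and the Tate-Shafarevich group of
`y² = x³ + d³`, `d = dlc c S`
-/

set_option autoImplicit false

namespace Pool.Agent.Lib.MP_1a91b9_ntH2.C

open WeierstrassCurve WithZero NumberField IsDedekindDomain Pool.Agent.Lib.MP_1a91b9_ntT
open Pool.Agent.Lib.MP_1a91b9_ntH Pool.Agent.Lib.MP_1a91b9_ntH.C Pool.Agent.Lib.MP_1a91b9_ntH2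
open Pool.Agent.Lib.MP_1a91b9_ntT3.S9 (ShaP)
open scoped Classical

theorem sel_clc (c : F4) (S : Finset Pq) (hM : ((tw c qd).M S).det ≠ 0) :
    SelCl om ((dlc c S : 𝓞 K) : K) :=
  fun a ha hp hloc => sel_class_c c S hM a ha hp hloc

theorem dlc_ne (c : F4) (S : Finset Pq) : ((dlc c S : 𝓞 K) : K) ≠ 0 :=
  fun h0 => MP_1a91b9_ntH2.C.dlc_ne_zero c S
    (RingOfIntegers.ext (h0.trans (_root_.map_zero (algebraMap (𝓞 K) K)).symm))

/-- The group of points is finite, with `4` times an odd number of elements. -/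
theorem points_dlc (c : F4) (S : Finset Pq) (hM : ((tw c qd).M S).det ≠ 0) {W : WeierstrassCurve K}
    (hW : W = cv ((dlc c S : 𝓞 K) : K)) :
    Finite W.toAffine.Point ∧ ∃ m : ℕ, Odd m ∧ Nat.card W.toAffine.Point = 4 * m := by
  subst hW
  exact ⟨fin_of_half (dlc_ne c S) rfl (desc_pts (dlc_ne c S) om_quad (sel_clc c S hM) rfl),
    card_of_half (dlc_ne c S) rfl om_quad (desc_pts (dlc_ne c S) om_quad (sel_clc c S hM) rfl)⟩

theorem finite_dlc (c : F4) (S : Finset Pq) (hM : ((tw c qd).M S).det ≠ 0)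
    {W : WeierstrassCurve K} (hW : W = cv ((dlc c S : 𝓞 K) : K)) : Finite W.toAffine.Point :=
  (points_dlc c S hM hW).1

/-- The 2-primary part of the Tate-Shafarevich group is trivial. -/
theorem sha_dlc (c : F4) (S : Finset Pq) (hM : ((tw c qd).M S).det ≠ 0) {W : WeierstrassCurve K}
    (hW : W = cv ((dlc c S : 𝓞 K) : K)) : Nat.card (ShaP 2 W) = 1 := by
  subst hW
  exact card_shaP (dlc_ne c S) om_quad (sel_clc c S hM)

end Pool.Agent.Lib.MP_1a91b9_ntH2.C
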